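import Pool.Agent.H3.LgA

open Polynomial Pool.Agent.H3.Lg

namespace Pool.Agent.Results.MP_c016d9_an.Full

noncomputable def appL : List ℕ → Module.End ℝ ℝ[X]
  | [] => LinearMap.id
  | c :: l => M 0 c ∘ₗ appL l

lemma appL_apply (l : List ℕ) (p : ℝ[X]) : appL l p = app 0 l p := by
  induction l with
  | nil => rfl
  | cons c l ih => simp only [appL, app, LinearMap.comp_apply, ih]

lemma eig {p : ℝ[X]} {m : ℝ}
    (h : (1 - X ^ 2) * derivative (derivative p) - 2 * X * derivative p + C m * p = 0)
    (l : List ℕ) : app 0 l p = (l.map fun c : ℕ => m - c).prod • p := by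
  induction l with
  | nil => simp [app]
  | cons c l ih =>
    rw [app, ih, map_smul, List.map_cons, List.prod_cons, mul_comm, mul_smul]
    congr 1
    simp only [M_apply, E_apply, smul_eq_C_mul, map_sub, map_mul, map_add, Nat.cast_zero,
      map_zero, map_one, map_ofNat]
    linear_combination (-1 : ℝ[X]) * h

lemma prod_eq (m n : ℕ) :
    ((List.range n).map fun c : ℕ => (m : ℝ) - c).prod = (m.descFactorial n : ℝ) := by
  induction n with
  | zero => simp
  | succ n ih =>
    rw [List.range_succ, List.map_append, List.prod_append, ih, Nat.descFactorial_succ]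
    by_cases h : n ≤ m
    · simp [Nat.cast_sub h, mul_comm]
    · simp [Nat.descFactorial_eq_zero_iff_lt.2 (not_le.1 h)]

theorem result (P : ℕ → ℝ[X]) (hdeg : ∀ k, (P k).degree = k)
    (hode : ∀ k, (1 - X ^ 2) * derivative (derivative (P k)) - 2 * X * derivative (P k)
      + C ((k * (k + 1) : ℕ) : ℝ) * P k = 0)
    (n : ℕ) (G : ℝ[X] →ₗ[ℝ] ℝ[X])
    (hG : ∀ k, G (P k) = (((k * (k + 1)).descFactorial n : ℕ) : ℝ) • P k)
    (p : ℝ[X]) (hp : ∀ z : ℂ, aeval z p = 0 → z.im = 0) :
    G p = 0 ∨ ∀ z : ℂ, aeval z (G p) = 0 → z.im = 0 := by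
  have hspan : Submodule.span ℝ (Set.range P) = ⊤ := by
    refine Polynomial.Sequence.span ⟨P, hdeg⟩ fun i => ?_
    refine IsUnit.mk0 _ (leadingCoeff_ne_zero.2 fun h => ?_)
    have := hdeg i
    simp only at h
    rw [h] at this
    simp at this
  have e : G = appL (List.range n) := by
    refine LinearMap.ext_on_range hspan fun k => ?_
    rw [hG, appL_apply, eig (hode k), prod_eq]
  rw [e, appL_apply, ← St_iff]
  exact St_range n p ((St_iff p).2 (Or.inr hp))

end Pool.Agent.Results.MP_c016d9_an.Full
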